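import Pool.Agent.Y262.EX.Stm

/-! # A measure which is compatible with the identifications descends -/

set_option autoImplicit false

open Set Filter Topology MeasureTheory

namespace Pool.Agent.Y749.EX

theorem etale : Pool.Agent.Y262.EX.StEtale := by
  classical
  intro X Q _ _ _ _ _ _ _ O q ν hO hq hsurj hloc hcomp
  -- the trivial case
  rcases isEmpty_or_nonempty Q with hQ | hQ
  · refine ⟨0, fun B _ hBO _ => ?_⟩
    have : B = ∅ := by
      refine eq_empty_iff_forall_notMem.2 fun x _ => hQ.elim (q x)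
    rw [this]
    simp
  -- a countable cover
  choose! U hUo hUm hUO hUi using hloc
  obtain ⟨S, hSO, hSc, hScov⟩ : ∃ S : Set X, S ⊆ O ∧ S.Countable ∧ O ⊆ ⋃ x ∈ S, U x := by
    have := TopologicalSpace.countable_cover_nhdsWithin (s := O) (f := U) fun x hx =>
      mem_nhdsWithin_of_mem_nhds ((hUo x hx).mem_nhds (hUm x hx))
    exact this
  have hne : S.Nonempty := by
    obtain ⟨y⟩ := hQ
    have hy : y ∈ q '' O := by rw [hsurj]; trivial
    obtain ⟨x, hx, -⟩ := hy
    obtain ⟨z, hz⟩ := mem_iUnion.1 (hScov hx)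
    obtain ⟨hz1, -⟩ := mem_iUnion.1 hz
    exact ⟨z, hz1⟩
  obtain ⟨f, hf⟩ := hSc.exists_eq_range hne
  obtain ⟨V, hV⟩ : ∃ V : ℕ → Set X, ∀ n, V n = U (f n) := ⟨_, fun n => rfl⟩
  have hfS : ∀ n, f n ∈ S := fun n => by rw [hf]; exact mem_range_self n
  have hVo : ∀ n, IsOpen (V n) := fun n => by rw [hV]; exact hUo _ (hSO (hfS n))
  have hVO : ∀ n, V n ⊆ O := fun n => by rw [hV]; exact hUO _ (hSO (hfS n))
  have hVi : ∀ n, InjOn q (V n) := fun n => by rw [hV]; exact hUi _ (hSO (hfS n))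
  have hVcov : O ⊆ ⋃ n, V n := by
    intro x hx
    obtain ⟨z, hz⟩ := mem_iUnion.1 (hScov hx)
    obtain ⟨hz1, hz2⟩ := mem_iUnion.1 hz
    rw [hf] at hz1
    obtain ⟨n, rfl⟩ := hz1
    exact mem_iUnion.2 ⟨n, by rw [hV]; exact hz2⟩
  -- images of Borel sets
  have him : ∀ B : Set X, MeasurableSet B → B ⊆ O → InjOn q B → MeasurableSet (q '' B) :=
    fun B hB hBO hi => hB.image_of_continuousOn_injOn (hq.mono hBO) hi
  have hpre : ∀ (A : Set X) (E : Set Q), MeasurableSet A → A ⊆ O → MeasurableSet E →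
      MeasurableSet (A ∩ q ⁻¹' E) := by
    intro A E hA hAO hE
    have h1 : Measurable (A.restrict q) :=
      (continuousOn_iff_continuous_restrict.1 (hq.mono hAO)).measurable
    have h2 : A ∩ q ⁻¹' E = Subtype.val '' ((A.restrict q) ⁻¹' E) := by
      ext x
      constructor
      · rintro ⟨h3, h4⟩
        exact ⟨⟨x, h3⟩, h4, rfl⟩
      · rintro ⟨⟨y, hy⟩, h3, rfl⟩
        exact ⟨hy, h3⟩
    rw [h2]
    exact hA.subtype_image (h1 hE)
  obtain ⟨E, hE⟩ : ∃ E : ℕ → Set Q, E = disjointed fun n => q '' V n := ⟨_, rfl⟩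
  have hEm : ∀ n, MeasurableSet (E n) := by
    intro n
    rw [hE]
    exact MeasurableSet.disjointed (fun n => him _ (hVo n).measurableSet (hVO n) (hVi n)) n
  have hEd : Pairwise (Function.onFun Disjoint E) := by rw [hE]; exact disjoint_disjointed _
  have hEU : ⋃ n, E n = univ := by
    rw [hE, iUnion_disjointed]
    refine eq_univ_of_forall fun y => ?_
    have hy : y ∈ q '' O := by rw [hsurj]; trivial
    obtain ⟨x, hx, rfl⟩ := hy
    obtain ⟨n, hn⟩ := mem_iUnion.1 (hVcov hx)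
    exact mem_iUnion.2 ⟨n, x, hn, rfl⟩
  have hEs : ∀ n, E n ⊆ q '' V n := fun n => by rw [hE]; exact disjointed_subset _ n
  obtain ⟨B, hB⟩ : ∃ B : ℕ → Set X, ∀ n, B n = V n ∩ q ⁻¹' (E n) := ⟨_, fun n => rfl⟩
  have hBm : ∀ n, MeasurableSet (B n) := fun n => by
    rw [hB]; exact hpre _ _ (hVo n).measurableSet (hVO n) (hEm n)
  have hBO : ∀ n, B n ⊆ O := fun n => by rw [hB]; exact inter_subset_left.trans (hVO n)
  have hBi : ∀ n, InjOn q (B n) := fun n => by
    rw [hB]; exact (hVi n).mono inter_subset_left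
  obtain ⟨y0⟩ := hQ
  obtain ⟨g, hg⟩ : ∃ g : ℕ → X → Q, ∀ n, g n = (B n).piecewise q fun _ => y0 := ⟨_, fun n => rfl⟩
  have hgm : ∀ n, Measurable (g n) := by
    intro n
    rw [hg]
    intro A hA
    have h1 : (B n).piecewise q (fun _ => y0) ⁻¹' A = (B n ∩ q ⁻¹' A) ∪
        ((B n)ᶜ ∩ (fun _ : X => y0) ⁻¹' A) := by
      rw [piecewise_preimage, Set.ite]
      congr 1
      · exact inter_comm _ _
      · rw [sdiff_eq, inter_comm]
    rw [h1]
    exact (hpre _ _ (hBm n) (hBO n) hA).union ((hBm n).compl.inter (measurable_const hA))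
  refine ⟨Measure.sum fun n => (ν.restrict (B n)).map (g n), fun C hC hCO hCi => ?_⟩
  have hCm := him C hC hCO hCi
  rw [Measure.sum_apply _ hCm]
  have e1 : ∀ n, ((ν.restrict (B n)).map (g n)) (q '' C) = ν (C ∩ q ⁻¹' (E n)) := by
    intro n
    rw [Measure.map_apply (hgm n) hCm, Measure.restrict_apply (hgm n hCm)]
    have h1 : g n ⁻¹' (q '' C) ∩ B n = B n ∩ q ⁻¹' (q '' C) := by
      ext x
      constructor
      · rintro ⟨h2, h3⟩
        refine ⟨h3, ?_⟩
        rw [mem_preimage, hg, piecewise_eq_of_mem _ _ _ h3] at h2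
        exact h2
      · rintro ⟨h2, h3⟩
        refine ⟨?_, h2⟩
        rw [mem_preimage, hg, piecewise_eq_of_mem _ _ _ h2]
        exact h3
    rw [h1]
    refine hcomp _ _ (hpre _ _ (hBm n) (hBO n) hCm) (hpre _ _ hC hCO (hEm n))
      (inter_subset_left.trans (hBO n)) (inter_subset_left.trans hCO)
      ((hBi n).mono inter_subset_left) (hCi.mono inter_subset_left) ?_
    rw [image_inter_preimage, image_inter_preimage]
    have h2 : q '' B n = E n := by
      rw [hB, image_inter_preimage]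
      exact inter_eq_right.2 (hEs n)
    rw [h2, inter_comm]
  simp_rw [e1]
  rw [← measure_iUnion]
  · congr 1
    rw [← inter_iUnion, ← preimage_iUnion, hEU, preimage_univ, inter_univ]
  · intro i j hij
    have := hEd hij
    exact (this.preimage q).mono inter_subset_right inter_subset_right
  · intro n
    exact hpre _ _ hC hCO (hEm n)

end Pool.Agent.Y749.EX
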