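import Pool.Agent.Y262.EX.Stm

/-! # Quotients by properly discontinuous cocompact actions -/

set_option autoImplicit false

open Set Filter Topology

namespace Pool.Agent.Y749.EX

theorem top : Pool.Agent.Y262.EX.StTop := by
  intro X G _ _ _ _ _ _ hc hpd ⟨K0, hK0, hcov⟩
  letI i1 : ContinuousConstSMul G X := ⟨hc⟩
  letI i2 : ProperlyDiscontinuousSMul G X := ⟨fun {K L} hK hL => by
    refine (hpd (K ∪ L) (hK.union hL)).subset ?_
    rintro g ⟨x, ⟨y, hy, rfl⟩, hx⟩
    exact ⟨g • y, ⟨y, Or.inl hy, rfl⟩, Or.inr hx⟩⟩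
  let Q := Quotient (MulAction.orbitRel G X)
  let p : X → Q := Quotient.mk (MulAction.orbitRel G X)
  have hq : IsOpenQuotientMap p := MulAction.isOpenQuotientMap_quotientMk
  have hrel : ∀ x y, p x = p y ↔ ∃ g : G, g • x = y := by
    intro x y
    constructor
    · intro h
      have h1 : (MulAction.orbitRel G X).r y x := Quotient.exact h.symm
      obtain ⟨g, hg⟩ := h1
      exact ⟨g, hg⟩
    · rintro ⟨g, hg⟩
      refine (Quotient.sound ?_ : p y = p x).symm
      exact ⟨g, hg⟩
  have t2 : T2Space Q := inferInstance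
  have sc : SecondCountableTopology Q := ContinuousConstSMul.secondCountableTopology
  have cp : CompactSpace Q := by
    constructor
    have h1 : p '' K0 = univ := by
      refine eq_univ_of_forall fun z => ?_
      obtain ⟨x, rfl⟩ := hq.surjective z
      obtain ⟨g, hg⟩ := hcov x
      exact ⟨g • x, hg, ((hrel x (g • x)).2 ⟨g, rfl⟩).symm⟩
    rw [← h1]
    exact hK0.image hq.continuous
  have mz : TopologicalSpace.MetrizableSpace Q := inferInstance
  letI m : MetricSpace Q := TopologicalSpace.metrizableSpaceMetric Q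
  exact ⟨Q, m, cp, p, hq.continuous, hq.isOpenMap, hq.surjective, hrel⟩

end Pool.Agent.Y749.EX
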